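import Mathlib
import Pool.Agent.Lib_MP_11aa79_q2.FIN

namespace Pool.Agent.Results.MP_11aa79_an.ProductsNotDense

open Pool.Agent.Aug

/-- The products of two elements of the augmentation ideal of the convolution algebra of absolutely
summable functions on the free group on two generators are not dense in it: there is an element
`a` of the ideal, supported on the three points `1, x, y`, and `δ > 0` such that every product of
two elements of the ideal has distance at least `δ` from `a`. -/
theorem result :
    ∃ a : FreeGroup (Fin 2) → ℂ,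
      (∀ g, a g ≠ 0 → g = 1 ∨ g = FreeGroup.of 0 ∨ g = FreeGroup.of 1) ∧
      (Summable fun g => ‖a g‖) ∧ ∑' g, a g = 0 ∧
      ∃ δ : ℝ, 0 < δ ∧ ∀ b c : FreeGroup (Fin 2) → ℂ,
        (Summable fun g => ‖b g‖) → ∑' g, b g = 0 →
        (Summable fun g => ‖c g‖) → ∑' g, c g = 0 →
          (Summable fun x => ‖∑' g, b g * c (g⁻¹ * x)‖) ∧
          δ ≤ ∑' x, ‖(∑' g, b g * c (g⁻¹ * x)) - a x‖ := by
  obtain ⟨δ, hδ, h⟩ := fin_a1
  refine ⟨a0.fn, ?_, a1_summable a0, aug_a0, δ, hδ, fun b c hb hb0 hc hc0 => ⟨?_, ?_⟩⟩
  · intro g hg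
    by_contra hne
    push Not at hne
    apply hg
    have h1 : del g = 0 := by
      unfold del
      rw [if_neg hne.1]
    have h2 : T0 g = 0 := by
      by_contra h3
      rcases T0_supp h3 with h4 | h4
      · exact hne.2.1 h4
      · exact hne.2.2 h4
    change del g - T0 g = 0
    rw [h1, h2, sub_zero]
  · exact Pool.Agent.Lib_MP_11aa79_an.summable_conv hb hc
  · have h1 := h (A1.of b hb) (A1.of c hc) hb0 hc0
    rw [a1_norm] at h1
    exact h1

end Pool.Agent.Results.MP_11aa79_an.ProductsNotDense
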